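import Pool.Agent.Q82.BB.Stm

/-!
# Project BC: blow-up rate `(T-t)⁻¹` for the bad Boussinesq equation (row MP_38bfeb_an)

Same method as project BB (whose definitions and theorems are used), at the critical scaling: the linear
part is `ε (1-chi) |ξ| exp(-lam τ)`, the weight `(1+|ξ|) exp(-√τ|ξ|/16)`, and the kernel of the high
frequencies is the Green function of `d²/dτ² - lam²` with Dirichlet condition at `τ = 0`: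
`(exp(-lam|τ-s|) - exp(-lam(τ+s)))/(2 lam)`; the low frequencies are integrated backwards from `s = T`. The
convolution is at most `C ((1+|ξ|)³ + s^(-3/2)) exp(-√s|ξ|/16)`, and the kernel is `O(s)` near `s = 0`.

Every part is a `Prop`; a job proves `S_xx`, possibly from some other `S_yy` named in the job.
-/

set_option autoImplicit false

open MeasureTheory Filter Topology Set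
open Pool.Agent.Q82.BB (chi mu lam IsSh cv Nl Good UU Tower)

namespace Pool.Agent.Q82.BC

/-- The kernel, multiplied by `ξ²`. -/
noncomputable def kap2 (sh : ℝ → ℝ → ℝ) (ξ τ s : ℝ) : ℝ :=
  ξ ^ 2 * ((1 - chi ξ) * (Real.exp (-(lam ξ * |τ - s|)) - Real.exp (-(lam ξ * (τ + s)))) /
    (2 * lam ξ) - chi ξ * sh (mu ξ) (max (s - τ) 0))

/-- Properties of the kernel which are used for the fixed point. -/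
def KBd2 (T : ℝ) (κ : ℝ → ℝ → ℝ → ℝ) : Prop :=
  (∀ τ s : ℝ, ∀ n : ℕ, ContDiff ℝ n (fun ξ => κ ξ τ s)) ∧
  (∀ i : ℕ, Continuous (fun q : ℝ × ℝ × ℝ => iteratedDeriv i (fun ξ => κ ξ q.2.1 q.2.2) q.1)) ∧
  (∀ ξ τ s, κ (-ξ) τ s = κ ξ τ s) ∧
  ∀ i : ℕ, ∃ C : ℝ, 0 < C ∧ ∀ ξ : ℝ, ∀ τ ∈ Ioc 0 T, ∀ s ∈ Ioc 0 T,
    |iteratedDeriv i (fun ξ => κ ξ τ s) ξ| ≤
      C * (min 1 ((1 + ξ ^ 2) * s) * Real.exp (-(ξ ^ 2 * |τ - s| / 4)))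

noncomputable def er (ξ τ : ℝ) : ℝ := Real.exp (-(Real.sqrt τ * |ξ| / 16))

/-- Smooth in `ξ`, all `ξ`-derivatives jointly continuous for `0 < τ ≤ T`, with bounds. -/
def Adm2 (T : ℝ) (w : ℝ → ℝ → ℂ) (Cs : ℕ → ℝ) : Prop :=
  (∀ τ ∈ Ioc 0 T, ∀ n : ℕ, ContDiff ℝ n (fun ξ => w ξ τ)) ∧
  (∀ i : ℕ, ContinuousOn (fun q : ℝ × ℝ => iteratedDeriv i (fun ξ => w ξ q.2) q.1)
    (univ ×ˢ Ioc 0 T)) ∧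
  (∀ i : ℕ, 0 ≤ Cs i) ∧
  ∀ i : ℕ, ∀ ξ : ℝ, ∀ τ ∈ Ioc 0 T,
    ‖iteratedDeriv i (fun ξ => w ξ τ) ξ‖ ≤ Cs i * ((1 + |ξ|) * er ξ τ)

/-- The linear part. -/
noncomputable def w02 (ε : ℝ) (ξ τ : ℝ) : ℂ :=
  ((ε * (1 - chi ξ) * |ξ| * Real.exp (-(lam ξ * τ)) : ℝ) : ℂ)

/-- The kernel is admissible. As `S_KB` of project BB. High part: with `m = min τ s`,
`exp(-lam|τ-s|) - exp(-lam(τ+s)) = exp(-lam|τ-s|) (1 - exp(-2 lam m))`, and the derivatives of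
`1 - exp(-2 lam m)` are at most `C_i min(1, ξ² m)` (for `|ξ| ≥ 2`, `|∂^i lam| ≤ C_i |ξ|` for `i ≥ 1`,
`|∂^i (exp(-2 lam m))| ≤ C_i min(1, |ξ| m)` for `i ≥ 1`), `ξ²/(2 lam)` has bounded derivatives. Low part:
compact support in `ξ`, at most `C max(s-τ, 0) ≤ C s`, also for all `ξ`-derivatives (`sh m 0 = 0`, mean
value), and `s ≤ (1+T) min(1, s) ≤ (1+T) min(1, (1+ξ²) s)`. -/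
def S_KB2 : Prop := ∀ sh ch : ℝ → ℝ → ℝ, IsSh sh ch → ∀ T : ℝ, 0 < T → KBd2 T (kap2 sh)

/-- The linear part is admissible, with constants proportional to `ε`; `lam τ ≥ (4/5) ξ² τ`, and
`(4/5) X² ≥ X/8 - 1` for `X = |ξ|√τ`. -/
def S_W02 : Prop := ∀ T : ℝ, 0 < T → ∃ Cs : ℕ → ℝ, ∀ ε : ℝ, 0 < ε →
  Adm2 T (w02 ε) (fun i => ε * Cs i) ∧ ∀ ξ τ : ℝ, w02 ε (-ξ) τ = (starRingEnd ℂ) (w02 ε ξ τ)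

/-- Convolution. For `|η| ≤ 2|ξ| + 1` the product is at most `C (1+|ξ|)² er ξ τ`; for `|η| > 2|ξ| + 1`:
`|η| + |ξ-η| ≥ |ξ| + |η|`, `(1+|η|)(1+|ξ-η|) ≤ 6 η²`, and `∫ η² exp(-√τ|η|/16) dη ≤ C τ^(-3/2)`. -/
def S_CVB2 : Prop := ∃ K : ℝ, 0 < K ∧ ∀ (f g : ℝ → ℂ) (A B τ : ℝ), 0 < τ → 0 ≤ A → 0 ≤ B →
  Continuous f → Continuous g → (∀ ξ, ‖f ξ‖ ≤ A * ((1 + |ξ|) * er ξ τ)) →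
  (∀ ξ, ‖g ξ‖ ≤ B * ((1 + |ξ|) * er ξ τ)) → ∀ ξ, Integrable (fun η => f η * g (ξ - η)) ∧
    ‖∫ η, f η * g (ξ - η)‖ ≤ K * A * B * (er ξ τ * ((1 + |ξ|) ^ 3 + (τ * Real.sqrt τ)⁻¹))

/-- Derivatives of the convolution, as `S_CVD` of project BB. -/
def S_CVD2 : Prop := ∀ (T : ℝ) (w : ℝ → ℝ → ℂ) (Cs : ℕ → ℝ), 0 < T → Adm2 T w Cs →
  (∀ τ ∈ Ioc 0 T, ∀ n : ℕ, ContDiff ℝ n (fun ξ => cv w w ξ τ)) ∧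
  (∀ i : ℕ, ∀ τ ∈ Ioc 0 T, ∀ ξ : ℝ, iteratedDeriv i (fun ξ => cv w w ξ τ) ξ =
    ∫ η, w η τ * iteratedDeriv i (fun ξ => w ξ τ) (ξ - η)) ∧
  ∀ i : ℕ, ContinuousOn (fun q : ℝ × ℝ => iteratedDeriv i (fun ξ => cv w w ξ q.2) q.1)
    (univ ×ˢ Ioc 0 T)

/-- Time integral. First `exp(-(ξ²|τ-s|/4)) er ξ s ≤ 2 exp(-(ξ²|τ-s|/8)) er ξ τ` (for `s < τ`, with
`X = |ξ|√τ`, `Y = |ξ|√s`: `(X-Y)/16 ≤ (X-Y)(X+Y)/8` if `X + Y ≥ 1/2`, otherwise `(X-Y)/16 ≤ 1/32`). For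
`|ξ| ≥ 1`: `(1+|ξ|)³ ∫ exp(-(ξ²|τ-s|/8)) ≤ 8|ξ|³ · 16/ξ²`, and
`∫ min(1, 2ξ² s) s^(-3/2) ds ≤ 4|ξ| + 2|ξ|` (split at `s = ξ⁻²`). For `|ξ| ≤ 1` the left side is at most
`∫_0^T min(1,2s) (8 + s^(-3/2)) ds`. -/
def S_TI2 : Prop := ∀ T : ℝ, 0 < T → ∃ K : ℝ, 0 < K ∧ ∀ ξ : ℝ, ∀ τ ∈ Ioc 0 T,
  IntervalIntegrable (fun s => min 1 ((1 + ξ ^ 2) * s) * Real.exp (-(ξ ^ 2 * |τ - s| / 4)) *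
    (er ξ s * ((1 + |ξ|) ^ 3 + (s * Real.sqrt s)⁻¹))) volume 0 T ∧
  ∫ s in (0 : ℝ)..T, min 1 ((1 + ξ ^ 2) * s) * Real.exp (-(ξ ^ 2 * |τ - s| / 4)) *
    (er ξ s * ((1 + |ξ|) ^ 3 + (s * Real.sqrt s)⁻¹)) ≤ K * ((1 + |ξ|) * er ξ τ)

/-- The nonlinear part is admissible, as `S_NB` of project BB. From `S_CVB2`, `S_CVD2`, `S_TI2`. -/
def S_NB2 : Prop := ∀ (T : ℝ) (κ : ℝ → ℝ → ℝ → ℝ), 0 < T → KBd2 T κ →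
  ∃ (K0 : ℝ) (K1 : ℕ → ℝ), 0 < K0 ∧ (∀ i, 0 ≤ K1 i) ∧ ∀ (w : ℝ → ℝ → ℂ) (Cs : ℕ → ℝ), Adm2 T w Cs →
  (∀ τ ∈ Ioc 0 T, ∀ n : ℕ, ContDiff ℝ n (fun ξ => Nl T κ w ξ τ)) ∧
  (∀ i : ℕ, ContinuousOn (fun q : ℝ × ℝ => iteratedDeriv i (fun ξ => Nl T κ w ξ q.2) q.1)
    (univ ×ˢ Ioc 0 T)) ∧
  ∀ i : ℕ, ∀ ξ : ℝ, ∀ τ ∈ Ioc 0 T, ‖iteratedDeriv i (fun ξ => Nl T κ w ξ τ) ξ‖ ≤
    Cs 0 * (K0 * Cs i + K1 i * ∑ j ∈ Finset.range i, Cs j) * ((1 + |ξ|) * er ξ τ)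

/-- The Lipschitz property. From `S_CVB2`, `S_TI2`. -/
def S_NL2 : Prop := ∀ (T : ℝ) (κ : ℝ → ℝ → ℝ → ℝ), 0 < T → KBd2 T κ → ∃ K0 : ℝ, 0 < K0 ∧
  ∀ (w v : ℝ → ℝ → ℂ) (Cs Ds : ℕ → ℝ) (D : ℝ), 0 ≤ D → Adm2 T w Cs → Adm2 T v Ds →
  (∀ ξ : ℝ, ∀ τ ∈ Ioc 0 T, ‖w ξ τ - v ξ τ‖ ≤ D * ((1 + |ξ|) * er ξ τ)) →
  ∀ ξ : ℝ, ∀ τ ∈ Ioc 0 T, ‖Nl T κ w ξ τ - Nl T κ v ξ τ‖ ≤
    K0 * (Cs 0 + Ds 0) * D * ((1 + |ξ|) * er ξ τ)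

/-- The fixed point, as `S_FIX` of project BB (see its docstring). For `ε ≤ ε0` all iterates have
`Cs 0 ≤ 2 ε Cs0`, and `M = 4 K0 Cs0²`. For the limit use `S_LIM` of project BB on `[a, T]` for
every `a > 0` (applied to `w n ξ (a + τ)`, `0 ≤ τ ≤ T - a`); there `(1+|ξ|) er ξ τ ≤ C_a`. The limits for
different `a` agree (pointwise limits). -/
def S_FIX2 : Prop := ∀ (T : ℝ) (κ : ℝ → ℝ → ℝ → ℝ), 0 < T → KBd2 T κ →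
  ∃ ε0 M : ℝ, 0 < ε0 ∧ 0 < M ∧ ∀ ε : ℝ, 0 < ε → ε ≤ ε0 → ∃ (w : ℝ → ℝ → ℂ) (Cs : ℕ → ℝ), Adm2 T w Cs ∧
  (∀ ξ : ℝ, ∀ τ ∈ Ioc 0 T, w ξ τ = w02 ε ξ τ + Nl T κ w ξ τ) ∧
  (∀ ξ : ℝ, ∀ τ ∈ Ioc 0 T, w (-ξ) τ = (starRingEnd ℂ) (w ξ τ)) ∧
  ∀ ξ : ℝ, ∀ τ ∈ Ioc 0 T, ‖Nl T κ w ξ τ‖ ≤ M * ε ^ 2 * ((1 + |ξ|) * er ξ τ)

/-- The differential equation in time. From `S_CVB2`, `S_CVD2`, `S_NB2` or `S_TI2`. With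
`g s = cv w w ξ s`, continuous on `(0,T]` and `O(s^(-3/2))` for fixed `ξ`:
`Nl = ξ² ((1-chi) (e^{-lam τ} ∫_0^τ (sinh(lam s)/lam) g + (sinh(lam τ)/lam) ∫_τ^T e^{-lam s} g)
- chi (ch τ ∫_τ^T sh s g - sh τ ∫_τ^T ch s g))` for `0 < τ < T` (addition formula with `s - τ`), and the
fundamental theorem of calculus. Goodness of `w1`: for `a ≤ τ ≤ b`,
`‖w1‖ ≤ lam ‖w02‖ + (1 + lam) · C (1+|ξ|)^3 er ξ τ` or any similar bound from the formula. -/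
def S_ODE2 : Prop := ∀ sh ch : ℝ → ℝ → ℝ, IsSh sh ch → ∀ (T ε : ℝ) (w : ℝ → ℝ → ℂ) (Cs : ℕ → ℝ), 0 < T →
  Adm2 T w Cs → (∀ ξ : ℝ, ∀ τ ∈ Ioc 0 T, w ξ τ = w02 ε ξ τ + Nl T (kap2 sh) w ξ τ) →
  ∃ w1 : ℝ → ℝ → ℂ, Good T w1 ∧
  (∀ ξ : ℝ, ∀ τ ∈ Ioo 0 T, HasDerivAt (fun τ => w ξ τ) (w1 ξ τ) τ) ∧
  ∀ ξ : ℝ, ∀ τ ∈ Ioo 0 T, HasDerivAt (fun τ => w1 ξ τ)
    ((mu ξ : ℂ) * w ξ τ - (ξ : ℂ) ^ 2 * cv w w ξ τ) τ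

/-- `w` is good. -/
def S_GD2 : Prop := ∀ (T : ℝ) (w : ℝ → ℝ → ℂ) (Cs : ℕ → ℝ), 0 < T → Adm2 T w Cs → Good T w

/-- Decay in `x`, as `S_DEC` of project BB (integration by parts). -/
def S_DEC2 : Prop := ∀ (T : ℝ) (w : ℝ → ℝ → ℂ) (Cs : ℕ → ℝ), 0 < T → Adm2 T w Cs →
  ∀ a : ℝ, 0 < a → ∀ i N : ℕ, ∃ C : ℝ, ∀ x : ℝ, ∀ τ ∈ Icc a T, (1 + |x|) ^ N *
    |(∫ ξ : ℝ, (Complex.I * ξ) ^ i * w ξ τ * Complex.exp (Complex.I * x * ξ)).re| ≤ C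

/-- The rate. Proof: `∫ (1-chi)|ξ| exp(-lam τ) ≥ ∫_{|ξ| ≥ 3} |ξ| exp(-ξ² τ) = exp(-9τ)/τ` as `lam ≤ ξ²`, and
`≤ ∫ |ξ| exp(-ξ² τ/2) = 2/τ` (where `chi ≠ 1`: `|ξ| ≥ 2`, `lam ≥ ξ²/2`);
`∫ (1+|ξ|) er ξ τ = 32/√τ + 512/τ ≤ 544/τ` for `τ ≤ 1`. So for `544 M ε ≤ 1/4` the integral lies
between `ε/(4τ)` and `3ε/τ` for small `τ`. -/
def S_RATE : Prop := ∀ (T M : ℝ), 0 < T → 0 < M → ∃ ε1 : ℝ, 0 < ε1 ∧ ∀ ε : ℝ, 0 < ε → ε ≤ ε1 →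
  ∀ w n : ℝ → ℝ → ℂ, ContinuousOn (fun q : ℝ × ℝ => w q.1 q.2) (univ ×ˢ Ioc 0 T) →
  (∀ ξ : ℝ, ∀ τ ∈ Ioo 0 T, w ξ τ = w02 ε ξ τ + n ξ τ) →
  (∀ ξ : ℝ, ∀ τ ∈ Ioo 0 T, ‖n ξ τ‖ ≤ M * ε ^ 2 * ((1 + |ξ|) * er ξ τ)) →
  ∃ c1 c2 τ0 : ℝ, 0 < c1 ∧ 0 < c2 ∧ 0 < τ0 ∧ τ0 < T ∧ ∀ τ : ℝ, 0 < τ → τ ≤ τ0 →
    c1 / τ ≤ (∫ ξ : ℝ, w ξ τ).re ∧ (∫ ξ : ℝ, w ξ τ).re ≤ c2 / τ

/-- Everything together: `u x t = UU W 0 0 (x - x0) (T - t)` (apply the above with `T + 1`). -/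
def S_MAIN3 : Prop := ∀ (T x0 : ℝ), 0 < T → ∃ u : ℝ → ℝ → ℝ,
  (∀ n : ℕ, ContDiffOn ℝ n (fun q : ℝ × ℝ => u q.1 q.2) (univ ×ˢ Ioo (-1) T)) ∧
  (∀ x : ℝ, ∀ t ∈ Ioo (-1) T, iteratedDeriv 2 (fun t => u x t) t =
    iteratedDeriv 2 (fun x => u x t) x + iteratedDeriv 2 (fun x => u x t ^ 2) x +
      iteratedDeriv 4 (fun x => u x t) x) ∧
  (∀ (N : ℕ) (τ : ℝ), τ < T → ∃ C : ℝ, ∀ x : ℝ, ∀ t ∈ Icc 0 τ, ∀ i : ℕ, i ≤ N →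
    (1 + |x|) ^ N * |iteratedDeriv i (fun x => u x t) x| ≤ C) ∧
  ∃ c1 c2 T0 : ℝ, 0 < c1 ∧ 0 < c2 ∧ 0 < T0 ∧ T0 < T ∧ ∀ t ∈ Ico T0 T,
    c1 * (T - t)⁻¹ ≤ u x0 t ∧ u x0 t ≤ c2 * (T - t)⁻¹

end Pool.Agent.Q82.BC
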