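import Pool.Agent.Q109.BB_SH
import Pool.Agent.Q208.BB_LIM
import Pool.Agent.Q252.BB_CG
import Pool.Agent.Q217.BB_TS
import Pool.Agent.Q259.BB_JS
import Pool.Agent.Q129.BB_PDE
import Pool.Agent.Q256.BC.KB2
import Pool.Agent.Q129.BC_W02
import Pool.Agent.Q44.BC.Cvb2
import Pool.Agent.Q153.BC_CVD2
import Pool.Agent.Q187.BC_TI2
import Pool.Agent.Q90.BC_NB2
import Pool.Agent.Q94.BC_NL2
import Pool.Agent.Q194.BC_FIX2
import Pool.Agent.Q91.BC_ODE2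
import Pool.Agent.Q222.BC_GD2
import Pool.Agent.Q65.BC_DEC2
import Pool.Agent.Q110.BC_RATE
import Pool.Agent.Q154.BC_MAIN3

/-! Assembly of project BC. -/

set_option autoImplicit false

namespace Pool.Agent.Q82.BC

theorem main_all : S_MAIN3 :=
  main3 Pool.Agent.Q82.BB.sh1 Pool.Agent.Q256.BC.kb2
    (fix2 w02a Pool.Agent.Q44.BC.cvb2 (nb2 Pool.Agent.Q44.BC.cvb2 cvd2 ti2)
      (nl2 Pool.Agent.Q44.BC.cvb2 ti2) Pool.Agent.Q82.BB.lim1)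
    (ode2 Pool.Agent.Q44.BC.cvb2 cvd2 ti2) gd2 (Pool.Agent.Q82.BB.ts Pool.Agent.Q82.BB.cg)
    Pool.Agent.Q82.BB.js Pool.Agent.Q82.BB.pde dec2 rate1

end Pool.Agent.Q82.BC
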